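import Pool.Agent.H63.TC.Stmts

/-!
# Project TC, module CCL: the cone is closed, invariant under scaling and under deck
transformations
-/

open Complex Metric Set Filter Topology

namespace Pool.Agent.H63.TC

lemma ccl_close_mono {V : Type} [TopologicalSpace V] (A : Atlas V) {K : Set V} {c c' : ℝ}
    (h : c ≤ c') {F : V → V} (hF : A.Close K c F) : A.Close K c' F := by
  intro p hp
  obtain ⟨h1, h2, h3⟩ := hF p hp
  exact ⟨h1.trans h, h2, h3⟩

lemma ccl_sec_deck {V : Type} [TopologicalSpace V] (A : Atlas V) {g : V → V} (hg : Continuous g)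
    (h : ∀ p, A.E (g p) = A.E p) (p : V) {m : ℂ × ℂ} (hm : m ∈ ball (A.E p) (dd (A.E p))) :
    A.sec (g p) m = g (A.sec p m) := by
  have hg1 : ContinuousOn (fun m => g (A.sec p m)) (ball (A.E p) (dd (A.E p))) :=
    hg.comp_continuousOn (A.cont_sec_right p)
  have hg2 : ContinuousOn (A.sec (g p)) (ball (A.E p) (dd (A.E p))) := by
    have := A.cont_sec_right (g p)
    rwa [h p] at this
  have := A.eqOn_of_E (S := ball (A.E p) (dd (A.E p))) (convex_ball _ _).isPreconnected hg2 hg1
    (fun t ht => by
      rw [h (A.sec p t), A.E_sec p t ht, A.E_sec (g p) t (by rw [h p]; exact ht)])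
    (A.self_mem p) (by
      show A.sec (g p) (A.E p) = g (A.sec p (A.E p))
      rw [A.sec_self p]
      have h2 := A.sec_self (g p)
      rw [h p] at h2
      exact h2)
  exact this hm

theorem ccl : CclStmt := by
  intro V _ A
  refine ⟨?_, ?_, ?_⟩
  · intro ι l f ξ hl hf hlim K hK ε hε
    have h1 : TendstoUniformlyOn f ξ l K := by
      have := (tendstoLocallyUniformlyOn_iff_tendstoUniformlyOn_of_compact hK).1
        hlim.tendstoLocallyUniformlyOn
      exact this
    rw [Metric.tendstoUniformlyOn_iff] at h1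
    obtain ⟨i, hi⟩ := (h1 (ε / 2) (by positivity)).exists
    obtain ⟨F, hF, s, hs0, hs1, hcl, hest⟩ := hf i K hK (ε / 2) (by positivity)
    refine ⟨F, hF, s, hs0, by linarith, ccl_close_mono A (by linarith) hcl, ?_⟩
    intro p hp
    have h2 := hest p hp
    have h3 := (hi p hp).le
    rw [dist_comm, dist_eq_norm] at h3
    have h4 : A.E (F p) - A.E p - (s : ℂ) • ξ p =
        (A.E (F p) - A.E p - (s : ℂ) • f i p) + (s : ℂ) • (f i p - ξ p) := by
      rw [smul_sub]; abel
    rw [h4]
    refine (norm_add_le _ _).trans ?_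
    rw [norm_smul, Complex.norm_real, Real.norm_eq_abs, abs_of_pos hs0]
    nlinarith
  · intro ξ hξ r hr K hK ε hε
    obtain ⟨F, hF, s, hs0, hs1, hcl, hest⟩ := hξ K hK (min ε (min (ε * r) (ε / r)))
      (by positivity)
    refine ⟨F, hF, s / r, by positivity, ?_, ccl_close_mono A (min_le_left _ _) hcl, ?_⟩
    · rw [div_lt_iff₀ hr]
      exact hs1.trans_le ((min_le_right _ _).trans (min_le_left _ _))
    · intro p hp
      have h2 := hest p hp
      have hr' : (r : ℂ) ≠ 0 := by exact_mod_cast hr.ne'
      have h3 : ((s / r : ℝ) : ℂ) • ((r : ℂ) • ξ p) = (s : ℂ) • ξ p := by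
        rw [smul_smul]
        congr 1
        push_cast
        field_simp
      rw [h3]
      refine h2.trans ?_
      have h5 : min ε (min (ε * r) (ε / r)) ≤ ε / r :=
        (min_le_right _ _).trans (min_le_right _ _)
      calc min ε (min (ε * r) (ε / r)) * s ≤ ε / r * s := mul_le_mul_of_nonneg_right h5 hs0.le
        _ = ε * (s / r) := by ring
  · intro ξ hξ g hg K hK ε hε
    obtain ⟨F, hF, s, hs0, hs1, hcl, hest⟩ := hξ (g '' K) (hK.image g.continuous) ε hε
    have hg' : ∀ p, A.E (g.symm p) = A.E p := by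
      intro p
      have := hg (g.symm p)
      rw [g.apply_symm_apply] at this
      exact this.symm
    refine ⟨fun p => g.symm (F (g p)), ⟨?_, ?_⟩, s, hs0, hs1, ?_, ?_⟩
    · exact g.symm.continuous.comp (hF.1.comp g.continuous)
    · have h1 : (fun p => A.E (g.symm (F (g p)))) = fun p => A.E (F (g p)) := by
        funext p
        rw [hg']
      rw [h1]
      exact hF.2.comp_self (A.holSelf_deck g.continuous hg)
    · intro p hp
      obtain ⟨a1, a2, a3⟩ := hcl (g p) (mem_image_of_mem _ hp)
      rw [hg p] at a1 a2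
      rw [hg']
      refine ⟨a1, a2, ?_⟩
      have hm : A.E (F (g p)) ∈ ball (A.E p) (dd (A.E p)) := by
        rw [mem_ball, dist_eq_norm]; exact a2
      rw [ccl_sec_deck A g.continuous hg p hm] at a3
      show A.sec p (A.E (F (g p))) = g.symm (F (g p))
      rw [← a3, g.symm_apply_apply, a3]
    · intro p hp
      have := hest (g p) (mem_image_of_mem _ hp)
      rw [hg p] at this
      rw [hg']
      exact this

end Pool.Agent.H63.TC
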