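import Pool.Agent.H63.TC.Stmts

/-!
# Project TC, module CHO: elements of the cone are holomorphic
-/

open Complex Metric Set Filter Topology

namespace Pool.Agent.H63.TC

theorem cho (h1 : LihStmt) : ChoStmt := by
  intro V _ A ξ hξ p
  have hd := A.dd_pos p
  set r : ℝ := dd (A.E p) / 2 with hr
  have hr0 : 0 < r := by positivity
  have hrd : r < dd (A.E p) := by linarith
  have hK : IsCompact (A.sb p r) := A.isCompact_sb p hrd
  have hex : ∀ n : ℕ, ∃ F : V → V, A.HolSelf F ∧ ∃ s : ℝ, 0 < s ∧ s < 1 / ((n : ℝ) + 1) ∧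
      A.Close (A.sb p r) (1 / ((n : ℝ) + 1)) F ∧
      ∀ q ∈ A.sb p r, ‖A.E (F q) - A.E q - (s : ℂ) • ξ q‖ ≤ 1 / ((n : ℝ) + 1) * s :=
    fun n => hξ (A.sb p r) hK (1 / ((n : ℝ) + 1)) (by positivity)
  choose F hF s hs0 hs1 hcl hest using hex
  have hsub : ball (A.E p) r ⊆ ball (A.E p) (dd (A.E p)) := ball_subset_ball hrd.le
  have key := h1 (ℂ × ℂ) ℕ atTop (fun n m => ((s n : ℂ))⁻¹ • (A.E (F n (A.sec p m)) - m))
    (fun m => ξ (A.sec p m)) (ball (A.E p) r) inferInstance isOpen_ball ?_ ?_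
  · exact (key (A.E p) (mem_ball_self hr0)).differentiableAt (ball_mem_nhds _ hr0)
  · refine Eventually.of_forall fun n => ?_
    have h0 : DifferentiableOn ℂ (fun m => A.E (F n (A.sec p m)) - m) (ball (A.E p) r) :=
      (((hF n).2.differentiableOn_sec p).mono hsub).sub differentiableOn_id
    exact h0.const_smul ((s n : ℂ))⁻¹
  · refine TendstoUniformlyOn.tendstoLocallyUniformlyOn ?_
    rw [Metric.tendstoUniformlyOn_iff]
    intro ε hε
    obtain ⟨N, hN⟩ := exists_nat_one_div_lt hε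
    filter_upwards [eventually_ge_atTop N] with n hn m hm
    have hq : A.sec p m ∈ A.sb p r := ⟨m, ball_subset_closedBall hm, rfl⟩
    have h2 := hest n _ hq
    rw [A.E_sec p m (hsub hm)] at h2
    have hsn : (s n : ℂ) ≠ 0 := by exact_mod_cast (hs0 n).ne'
    rw [dist_comm, dist_eq_norm]
    have h3 : ((s n : ℂ))⁻¹ • (A.E (F n (A.sec p m)) - m) - ξ (A.sec p m) =
        ((s n : ℂ))⁻¹ • (A.E (F n (A.sec p m)) - m - (s n : ℂ) • ξ (A.sec p m)) := by
      rw [smul_sub _ _ ((s n : ℂ) • ξ (A.sec p m)), smul_smul, inv_mul_cancel₀ hsn, one_smul]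
    rw [h3, norm_smul, norm_inv, Complex.norm_real, Real.norm_eq_abs, abs_of_pos (hs0 n)]
    have h4 : (s n)⁻¹ * ‖A.E (F n (A.sec p m)) - m - (s n : ℂ) • ξ (A.sec p m)‖ ≤
        (s n)⁻¹ * (1 / ((n : ℝ) + 1) * s n) :=
      mul_le_mul_of_nonneg_left h2 (inv_nonneg.2 (hs0 n).le)
    have h5 : (s n)⁻¹ * (1 / ((n : ℝ) + 1) * s n) = 1 / ((n : ℝ) + 1) := by
      have := (hs0 n).ne'
      field_simp
    have h6 : 1 / ((n : ℝ) + 1) ≤ 1 / ((N : ℝ) + 1) := by
      apply one_div_le_one_div_of_le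
      · positivity
      · have : (N : ℝ) ≤ n := by exact_mod_cast hn
        linarith
    linarith

end Pool.Agent.H63.TC
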