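import Pool.Agent.H63.TC.Stmts

/-!
# Project TC, module PSH: push forward of the cone under biholomorphic maps
-/

open Complex Metric Set Filter Topology

namespace Pool.Agent.H63.TC

/-- second order Taylor estimate on a ball -/
lemma psh_taylor {h : ℂ × ℂ → ℂ × ℂ} {m₀ : ℂ × ℂ} {R M : ℝ} (hR : 0 < R)
    (hd : DifferentiableOn ℂ h (ball m₀ R)) (hM : ∀ m ∈ ball m₀ R, ‖h m‖ ≤ M) (hM0 : 0 ≤ M)
    {m : ℂ × ℂ} (hm : m ∈ ball m₀ R) :
    ‖h m - h m₀ - fderiv ℂ h m₀ (m - m₀)‖ ≤ 3 * (2 * M + 1) / R ^ 2 * ‖m - m₀‖ ^ 2 := by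
  by_cases hmm : m = m₀
  · subst hmm; simp
  have hr0 : 0 < ‖m - m₀‖ := norm_pos_iff.2 (sub_ne_zero.2 hmm)
  set r : ℝ := ‖m - m₀‖ with hr
  have hrR : r < R := by rwa [mem_ball, dist_eq_norm] at hm
  set g : ℂ → ℂ × ℂ := fun z => h (m₀ + z • (m - m₀)) with hg
  have hR1 : 1 < R / r := by rwa [one_lt_div hr0]
  have hR10 : 0 < R / r := by positivity
  have hin : ∀ z ∈ ball (0 : ℂ) (R / r), m₀ + z • (m - m₀) ∈ ball m₀ R := by
    intro z hz
    rw [mem_ball_zero_iff, lt_div_iff₀ hr0] at hz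
    rw [mem_ball, dist_eq_norm, add_sub_cancel_left, norm_smul]
    exact hz
  have hgd : DifferentiableOn ℂ g (ball 0 (R / r)) := by
    refine hd.comp ?_ hin
    fun_prop
  have hg0 : g 0 = h m₀ := by simp [hg]
  have hg1 : g 1 = h m := by simp [hg]
  have hder : HasDerivAt g (fderiv ℂ h m₀ (m - m₀)) 0 := by
    have h1 : HasFDerivAt h (fderiv ℂ h m₀) (m₀ + (0 : ℂ) • (m - m₀)) := by
      have := (hd m₀ (mem_ball_self hR)).differentiableAt (ball_mem_nhds _ hR)
      simpa using this.hasFDerivAt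
    have h2 : HasDerivAt (fun z : ℂ => m₀ + z • (m - m₀)) (m - m₀) 0 := by
      have := ((hasDerivAt_id (0 : ℂ)).smul_const (m - m₀)).const_add m₀
      simpa using this
    exact h1.comp_hasDerivAt (0 : ℂ) h2
  have hdg : deriv g 0 = fderiv ℂ h m₀ (m - m₀) := hder.deriv
  -- first Schwarz
  have h1ball : (1 : ℂ) ∈ ball (0 : ℂ) (R / r) := by
    rw [mem_ball_zero_iff, norm_one]; exact hR1
  have hmaps : MapsTo g (ball 0 (R / r)) (ball (g 0) (2 * M + 1)) := by
    intro z hz
    rw [mem_ball, dist_eq_norm]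
    have a1 := hM _ (hin z hz)
    have a2 := hM m₀ (mem_ball_self hR)
    have a3 : ‖g z - g 0‖ ≤ ‖g z‖ + ‖g 0‖ := norm_sub_le _ _
    rw [hg0] at a3 ⊢
    have a4 : ‖g z‖ ≤ M := a1
    linarith
  have hS1 : ∀ z ∈ ball (0 : ℂ) (R / r), ‖dslope g 0 z‖ ≤ (2 * M + 1) / (R / r) := fun z hz =>
    Complex.norm_dslope_le_div_of_mapsTo_ball hgd (hmaps.mono_right ball_subset_closedBall) hz
  have hd1 : DifferentiableOn ℂ (dslope g 0) (ball 0 (R / r)) :=
    (Complex.differentiableOn_dslope (ball_mem_nhds _ hR10)).2 hgd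
  have hpos : 0 < (2 * M + 1) / (R / r) := by positivity
  have hmaps2 : MapsTo (dslope g 0) (ball 0 (R / r))
      (ball (dslope g 0 0) (3 * ((2 * M + 1) / (R / r)))) := by
    intro z hz
    rw [mem_ball, dist_eq_norm]
    have a1 := hS1 z hz
    have a2 := hS1 0 (mem_ball_self hR10)
    have a3 := norm_sub_le (dslope g 0 z) (dslope g 0 0)
    linarith
  have hS2 := Complex.norm_dslope_le_div_of_mapsTo_ball hd1
    (hmaps2.mono_right ball_subset_closedBall) h1ball
  have h10 : (1 : ℂ) ≠ 0 := one_ne_zero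
  rw [dslope_of_ne _ h10, slope_def_module] at hS2
  rw [dslope_of_ne _ h10, slope_def_module, dslope_same, hdg, hg0, hg1] at hS2
  simp only [sub_zero, inv_one, one_smul] at hS2
  refine hS2.trans (le_of_eq ?_)
  field_simp

lemma psh_unif {V : Type} [TopologicalSpace V] (A : Atlas V) {T : V → V} (hT : A.HolSelf T)
    {K : Set V} (hK : IsCompact K) :
    ∃ ρ > 0, ∃ M : ℝ, 0 ≤ M ∧ ∀ p ∈ K, ρ < dd (A.E p) ∧ ∀ m ∈ ball (A.E p) ρ,
      ‖A.E (T (A.sec p m))‖ ≤ M := by
  classical
  by_cases hne : K.Nonempty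
  swap
  · refine ⟨1, one_pos, 0, le_rfl, ?_⟩
    intro p hp
    exact (hne ⟨p, hp⟩).elim
  have hc1 : ContinuousOn (fun p => dd (A.E p)) K :=
    (continuous_dd.comp A.cont_E).continuousOn
  obtain ⟨p₁, hp₁, hmin⟩ := hK.exists_isMinOn hne hc1
  set ρ : ℝ := dd (A.E p₁) / 2 with hρ
  have hρ0 : 0 < ρ := by have := A.dd_pos p₁; positivity
  have hlt : ∀ p ∈ K, ρ < dd (A.E p) := by
    intro p hp
    have h1 : dd (A.E p₁) ≤ dd (A.E p) := hmin hp
    have := A.dd_pos p₁
    linarith
  -- parametrise by K × closedBall 0 ρ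
  have hcomp : IsCompact (K ×ˢ closedBall (0 : ℂ × ℂ) ρ) := hK.prod (isCompact_closedBall _ _)
  have hcont : ContinuousOn (fun x : V × (ℂ × ℂ) => A.E (T (A.sec x.1 (A.E x.1 + x.2))))
      (K ×ˢ closedBall (0 : ℂ × ℂ) ρ) := by
    have h1 : ContinuousOn (fun x : V × (ℂ × ℂ) => A.sec x.1 (A.E x.1 + x.2))
        (K ×ˢ closedBall (0 : ℂ × ℂ) ρ) := by
      have h2 : ContinuousOn (fun x : V × (ℂ × ℂ) => (x.1, A.E x.1 + x.2))
          (K ×ˢ closedBall (0 : ℂ × ℂ) ρ) := by
        have : Continuous (fun x : V × (ℂ × ℂ) => (x.1, A.E x.1 + x.2)) :=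
          continuous_fst.prodMk ((A.cont_E.comp continuous_fst).add continuous_snd)
        exact this.continuousOn
      refine A.cont_sec.comp h2 ?_
      rintro ⟨p, v⟩ ⟨hp, hv⟩
      show A.E p + v ∈ ball (A.E p) (dd (A.E p))
      rw [mem_ball, dist_eq_norm, add_sub_cancel_left]
      have : ‖v‖ ≤ ρ := by simpa using hv
      exact this.trans_lt (hlt p hp)
    exact (A.cont_E.comp hT.1).comp_continuousOn h1
  obtain ⟨M, hM⟩ := hcomp.exists_bound_of_continuousOn hcont
  refine ⟨ρ, hρ0, max M 0, le_max_right _ _, ?_⟩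
  intro p hp
  refine ⟨hlt p hp, ?_⟩
  intro m hm
  have hm' : m - A.E p ∈ closedBall (0 : ℂ × ℂ) ρ := by
    rw [mem_closedBall_zero_iff]
    rw [mem_ball, dist_eq_norm] at hm
    exact hm.le
  have := hM (p, m - A.E p) ⟨hp, hm'⟩
  simp only [add_sub_cancel] at this
  exact this.trans (le_max_left _ _)

theorem psh (hCAU : CauStmt) (hCHO : ChoStmt) : PshStmt := by
  intro V _ A T hT hTs
  -- uniform constants
  have hunif : ∀ K, IsCompact K → ∃ ρ > 0, ∃ C ≥ 0, ∀ p ∈ K, ρ < dd (A.E p) ∧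
      ‖fderiv ℂ (fun m => A.E (T (A.sec p m))) (A.E p)‖ ≤ C ∧
      (∀ m ∈ ball (A.E p) ρ, ‖A.E (T (A.sec p m)) - A.E (T p)‖ ≤ C * ‖m - A.E p‖) ∧
      (∀ m ∈ ball (A.E p) ρ, ‖A.E (T (A.sec p m)) - A.E (T p) -
        fderiv ℂ (fun m => A.E (T (A.sec p m))) (A.E p) (m - A.E p)‖ ≤ C * ‖m - A.E p‖ ^ 2) := by
    intro K hK
    obtain ⟨ρ, hρ, M, hM0, hM⟩ := psh_unif A hT hK
    set C₁ : ℝ := 8 * M / ρ with hC₁
    set C₂ : ℝ := 3 * (2 * M + 1) / ρ ^ 2 with hC₂
    have hC₁0 : 0 ≤ C₁ := by positivity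
    have hC₂0 : 0 ≤ C₂ := by positivity
    refine ⟨ρ / 2, by positivity, C₁ + C₂, by positivity, ?_⟩
    intro p hp
    obtain ⟨hρd, hMp⟩ := hM p hp
    have hdiff : DifferentiableOn ℂ (fun m => A.E (T (A.sec p m))) (ball (A.E p) ρ) :=
      (hT.2.differentiableOn_sec p).mono (ball_subset_ball hρd.le)
    have hlip : ∀ m₁ ∈ ball (A.E p) (ρ / 2), ∀ m₂ ∈ ball (A.E p) (ρ / 2),
        ‖A.E (T (A.sec p m₁)) - A.E (T (A.sec p m₂))‖ ≤ C₁ * ‖m₁ - m₂‖ :=
      hCAU (ℂ × ℂ) (fun m => A.E (T (A.sec p m))) (A.E p) ρ M hρ hdiff hMp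
    have hself : A.E p ∈ ball (A.E p) (ρ / 2) := mem_ball_self (by positivity)
    refine ⟨by linarith, ?_, ?_, ?_⟩
    · have h1 : ‖fderiv ℂ (fun m => A.E (T (A.sec p m))) (A.E p)‖ ≤ C₁ := by
        have h2 : HasFDerivAt (fun m => A.E (T (A.sec p m)))
            (fderiv ℂ (fun m => A.E (T (A.sec p m))) (A.E p)) (A.E p) :=
          ((hdiff (A.E p) (mem_ball_self hρ)).differentiableAt
            (ball_mem_nhds _ hρ)).hasFDerivAt
        refine h2.le_of_lip' hC₁0 ?_
        filter_upwards [ball_mem_nhds (A.E p) (half_pos hρ)] with m hm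
        exact hlip m hm (A.E p) hself
      linarith
    · intro m hm
      have h1 := hlip m hm (A.E p) hself
      rw [A.sec_self] at h1
      refine h1.trans ?_
      have : 0 ≤ ‖m - A.E p‖ := norm_nonneg _
      nlinarith
    · intro m hm
      have hm' : m ∈ ball (A.E p) ρ := ball_subset_ball (by linarith) hm
      have h1 := psh_taylor hρ hdiff hMp hM0 hm'
      simp only [A.sec_self] at h1
      refine h1.trans ?_
      have : 0 ≤ ‖m - A.E p‖ ^ 2 := by positivity
      nlinarith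
  refine ⟨?_, ?_, ?_⟩
  · intro ξ hξ K hK ε hε
    have hξc : Continuous ξ := (hCHO V A ξ hξ).continuous
    have hK' : IsCompact (T.symm '' K) := hK.image T.symm.continuous
    obtain ⟨ρ, hρ, C, hC0, hC⟩ := hunif _ hK'
    obtain ⟨M, hM⟩ := hK'.exists_bound_of_continuousOn hξc.continuousOn
    obtain ⟨δ, hδ, hδK⟩ : ∃ δ > 0, ∀ q ∈ K, δ < dd (A.E q) := by
      by_cases hne : K.Nonempty
      · obtain ⟨p₁, hp₁, hmin⟩ := hK.exists_isMinOn hne
          (continuous_dd.comp A.cont_E).continuousOn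
        refine ⟨dd (A.E p₁) / 2, by have := A.dd_pos p₁; positivity, ?_⟩
        intro q hq
        have h1 : dd (A.E p₁) ≤ dd (A.E q) := hmin hq
        have := A.dd_pos p₁
        linarith
      · exact ⟨1, one_pos, fun q hq => (hne ⟨q, hq⟩).elim⟩
    set M' : ℝ := |M| + 1 with hM'
    have hM'0 : 0 < M' := by positivity
    set C' : ℝ := C + 1 with hC'
    have hC'0 : 0 < C' := by positivity
    -- the small parameter
    set e : ℝ := min (min 1 ε) (min (min (ρ / 2) (δ / (2 * C'))) (min (ε / (2 * C'))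
      (min (ε / (2 * C' * M' ^ 2)) (ε / (2 * C'))))) with he
    have he0 : 0 < e := by positivity
    have he1 : e ≤ 1 := (min_le_left _ _).trans (min_le_left _ _)
    have he2 : e ≤ ε := (min_le_left _ _).trans (min_le_right _ _)
    have he3 : e ≤ ρ / 2 := (min_le_right _ _).trans ((min_le_left _ _).trans (min_le_left _ _))
    have he4 : e ≤ δ / (2 * C') :=
      (min_le_right _ _).trans ((min_le_left _ _).trans (min_le_right _ _))
    have he5 : e ≤ ε / (2 * C') :=
      (min_le_right _ _).trans ((min_le_right _ _).trans (min_le_left _ _))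
    have he6 : e ≤ ε / (2 * C' * M' ^ 2) :=
      (min_le_right _ _).trans ((min_le_right _ _).trans
        ((min_le_right _ _).trans (min_le_left _ _)))
    obtain ⟨F, hF, s, hs0, hs1, hcl, hest⟩ := hξ _ hK' e he0
    refine ⟨fun q => T (F (T.symm q)), ⟨?_, ?_⟩, s, hs0, by linarith, ?_, ?_⟩
    · exact T.continuous.comp (hF.1.comp T.symm.continuous)
    · exact (hT.comp (hF.comp hTs)).2
    · intro q hq
      have hp : T.symm q ∈ T.symm '' K := mem_image_of_mem _ hq
      obtain ⟨hρd, hn, hlip, htay⟩ := hC _ hp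
      obtain ⟨a1, a2, a3⟩ := hcl _ hp
      set p := T.symm q with hpdef
      have hTp : T p = q := T.apply_symm_apply q
      have hmball : A.E (F p) ∈ ball (A.E p) ρ := by
        rw [mem_ball, dist_eq_norm]
        linarith
      have h1 := hlip _ hmball
      rw [a3, hTp] at h1
      have h2 : C * ‖A.E (F p) - A.E p‖ ≤ C' * e := by
        have := norm_nonneg (A.E (F p) - A.E p)
        nlinarith
      have h3 : C' * e ≤ δ / 2 := by
        have h4 := mul_le_mul_of_nonneg_left he4 hC'0.le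
        have h5 : C' * (δ / (2 * C')) = δ / 2 := by field_simp
        linarith
      have h6 : C' * e ≤ ε / 2 := by
        have h4 := mul_le_mul_of_nonneg_left he5 hC'0.le
        have h5 : C' * (ε / (2 * C')) = ε / 2 := by field_simp
        linarith
      refine ⟨by show ‖A.E (T (F p)) - A.E q‖ ≤ ε; linarith,
        by show ‖A.E (T (F p)) - A.E q‖ < dd (A.E q); have := hδK q hq; linarith, ?_⟩
      -- the sheet
      have hball : IsPreconnected (ball (A.E p) e) := (convex_ball _ _).isPreconnected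
      have hsubρ : closedBall (A.E p) e ⊆ ball (A.E p) ρ :=
        closedBall_subset_ball (by linarith)
      have hsubd : closedBall (A.E p) e ⊆ ball (A.E p) (dd (A.E p)) :=
        hsubρ.trans (ball_subset_ball hρd.le)
      have hc1 : ContinuousOn (fun m => T (A.sec p m)) (closedBall (A.E p) e) :=
        T.continuous.comp_continuousOn ((A.cont_sec_right p).mono hsubd)
      have hin : ∀ m ∈ closedBall (A.E p) e,
          A.E (T (A.sec p m)) ∈ ball (A.E q) (dd (A.E q)) := by
        intro m hm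
        have h1 := hlip m (hsubρ hm)
        rw [hTp] at h1
        rw [mem_closedBall, dist_eq_norm] at hm
        have h2 : C * ‖m - A.E p‖ ≤ C' * e := by
          have := norm_nonneg (m - A.E p)
          nlinarith
        rw [mem_ball, dist_eq_norm]
        have := hδK q hq
        linarith
      have hc2 : ContinuousOn (fun m => A.sec q (A.E (T (A.sec p m))))
          (closedBall (A.E p) e) :=
        (A.cont_sec_right q).comp (A.cont_E.comp_continuousOn hc1) hin
      have hmem : A.E (F p) ∈ closedBall (A.E p) e := by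
        rw [mem_closedBall, dist_eq_norm]; exact a1
      have h7 := A.eqOn_of_E (convex_closedBall (A.E p) e).isPreconnected hc2 hc1
        (fun m hm => A.E_sec q _ (hin m hm)) (mem_closedBall_self he0.le)
        (by
          show A.sec q (A.E (T (A.sec p (A.E p)))) = T (A.sec p (A.E p))
          rw [A.sec_self p, hTp, A.sec_self q]) hmem
      simp only [a3] at h7
      exact h7
    · intro q hq
      have hp : T.symm q ∈ T.symm '' K := mem_image_of_mem _ hq
      obtain ⟨hρd, hn, hlip, htay⟩ := hC _ hp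
      obtain ⟨a1, a2, a3⟩ := hcl _ hp
      have a4 := hest _ hp
      have a5 := hM _ hp
      show ‖A.E (T (F (T.symm q))) - A.E q - (s : ℂ) • A.push T ξ q‖ ≤ ε * s
      unfold Atlas.push
      set p := T.symm q with hpdef
      have hTp : T p = q := T.apply_symm_apply q
      set D := fderiv ℂ (fun m => A.E (T (A.sec p m))) (A.E p) with hD
      have hmball : A.E (F p) ∈ ball (A.E p) ρ := by
        rw [mem_ball, dist_eq_norm]
        linarith
      have h1 := htay _ hmball
      rw [a3, hTp] at h1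
      have h2 : A.E (T (F p)) - A.E q - (s : ℂ) • D (ξ p) =
          (A.E (T (F p)) - A.E q - D (A.E (F p) - A.E p)) +
            D (A.E (F p) - A.E p - (s : ℂ) • ξ p) := by
        rw [map_sub D (A.E (F p) - A.E p) ((s : ℂ) • ξ p), map_smul]
        abel
      rw [h2]
      have h3 : ‖A.E (F p) - A.E p‖ ≤ M' * s := by
        have h4 : A.E (F p) - A.E p = (A.E (F p) - A.E p - (s : ℂ) • ξ p) + (s : ℂ) • ξ p := by
          abel
        rw [h4]
        refine (norm_add_le _ _).trans ?_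
        rw [norm_smul, Complex.norm_real, Real.norm_eq_abs, abs_of_pos hs0]
        have h5 : ‖ξ p‖ ≤ |M| := a5.trans (le_abs_self M)
        have h6 : e * s ≤ 1 * s := mul_le_mul_of_nonneg_right he1 hs0.le
        nlinarith
      have h8 : ‖D (A.E (F p) - A.E p - (s : ℂ) • ξ p)‖ ≤ C * (e * s) := by
        refine (D.le_opNorm _).trans ?_
        exact mul_le_mul hn a4 (norm_nonneg _) hC0
      have h9 : C * ‖A.E (F p) - A.E p‖ ^ 2 ≤ C' * (M' * s) ^ 2 := by
        have h10 : ‖A.E (F p) - A.E p‖ ^ 2 ≤ (M' * s) ^ 2 :=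
          pow_le_pow_left₀ (norm_nonneg _) h3 2
        have h11 : 0 ≤ (M' * s) ^ 2 := by positivity
        nlinarith
      have h12 : C' * (M' * s) ^ 2 ≤ ε / 2 * s := by
        have h13 : s ≤ ε / (2 * C' * M' ^ 2) := hs1.le.trans he6
        have h14 : C' * M' ^ 2 * s ≤ ε / 2 := by
          have h15 := mul_le_mul_of_nonneg_left h13 (by positivity : 0 ≤ C' * M' ^ 2)
          have h16 : C' * M' ^ 2 * (ε / (2 * C' * M' ^ 2)) = ε / 2 := by field_simp
          linarith
        have h17 := mul_le_mul_of_nonneg_right h14 hs0.le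
        calc C' * (M' * s) ^ 2 = C' * M' ^ 2 * s * s := by ring
          _ ≤ ε / 2 * s := h17
      have h18 : C * (e * s) ≤ ε / 2 * s := by
        have h19 : C' * e ≤ ε / 2 := by
          have h4 := mul_le_mul_of_nonneg_left he5 hC'0.le
          have h5 : C' * (ε / (2 * C')) = ε / 2 := by field_simp
          linarith
        have h20 : C * e ≤ C' * e := mul_le_mul_of_nonneg_right (by linarith) he0.le
        have h21 := mul_le_mul_of_nonneg_right (h20.trans h19) hs0.le
        calc C * (e * s) = C * e * s := by ring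
          _ ≤ ε / 2 * s := h21
      calc _ ≤ ‖A.E (T (F p)) - A.E q - D (A.E (F p) - A.E p)‖ +
            ‖D (A.E (F p) - A.E p - (s : ℂ) • ξ p)‖ := norm_add_le _ _
        _ ≤ ε / 2 * s + ε / 2 * s := by linarith
        _ = ε * s := by ring
  · intro K hK
    have hK' : IsCompact (T.symm '' K) := hK.image T.symm.continuous
    obtain ⟨ρ, hρ, C, hC0, hC⟩ := hunif _ hK'
    refine ⟨C, ?_⟩
    intro ξ q hq
    obtain ⟨-, hn, -, -⟩ := hC _ (mem_image_of_mem _ hq)
    unfold Atlas.push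
    refine (ContinuousLinearMap.le_opNorm _ _).trans ?_
    exact mul_le_mul_of_nonneg_right hn (norm_nonneg _)
  · intro f ξ p hf
    unfold Atlas.push
    rw [T.symm_apply_apply]
    have h1 : ContinuousAt (fun m => T (A.sec p m)) (A.E p) :=
      ContinuousAt.comp (g := T) T.continuous.continuousAt (A.continuousAt_sec p (A.self_mem p))
    have h2 := hf.comp_hasFDerivAt (j := fun m => T (A.sec p m)) h1 (hT.2 p).hasFDerivAt
    rw [h2.fderiv]
    simp only [ContinuousLinearMap.comp_apply, A.sec_self]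

end Pool.Agent.H63.TC
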